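import Pool.Agent.Helper55_Fine.Grb
import Pool.Agent.Helper97_Fine.VONE

/-! # FINE, module GREEN: difference of the resolvents of half-plane and wedge -/

namespace Pool.Agent.H16F.H15

open MeasureTheory Complex Filter Topology Pool.Agent.H16Iso Pool.Agent.H62T
open scoped ENNReal NNReal ContDiff

/-! ### the Laplacian and affine maps -/

theorem test_diff_fderiv {φ : ℂ → ℝ} (hφ : φ ∈ Test Set.univ) (v : ℂ) :
    Differentiable ℝ (fun y => fderiv ℝ φ y v) :=
  H55.test_differentiable (H55.test_fderiv hφ v)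

theorem fderiv_comp_affine {ψ : ℂ → ℝ} (hψ : Differentiable ℝ ψ) (A : ℂ ≃L[ℝ] ℂ) (b v x : ℂ) :
    fderiv ℝ (fun x => ψ (A x + b)) x v = fderiv ℝ ψ (A x + b) (A v) := by
  have h1 : HasFDerivAt (fun x => A x + b) (A : ℂ →L[ℝ] ℂ) x := A.hasFDerivAt.add_const b
  have h2 : HasFDerivAt (ψ ∘ fun x => A x + b)
      ((fderiv ℝ ψ (A x + b)).comp (A : ℂ →L[ℝ] ℂ)) x :=
    HasFDerivAt.comp (f := fun x => A x + b) (g := ψ) x (hψ (A x + b)).hasFDerivAt h1
  have e : (fun x => ψ (A x + b)) = ψ ∘ fun x => A x + b := rfl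
  rw [e, h2.fderiv]
  rfl

theorem second_comp {φ : ℂ → ℝ} (hφ : φ ∈ Test Set.univ) (A : ℂ ≃L[ℝ] ℂ) (b v x : ℂ) (s : ℝ)
    (hA : A v = s • v) :
    fderiv ℝ (fun y => fderiv ℝ (fun x => φ (A x + b)) y v) x v
      = s ^ 2 * fderiv ℝ (fun y => fderiv ℝ φ y v) (A x + b) v := by
  have e1 : (fun y => fderiv ℝ (fun x => φ (A x + b)) y v)
      = fun y => s * (fun z => fderiv ℝ φ z v) (A y + b) := by
    funext y
    rw [fderiv_comp_affine (H55.test_differentiable hφ), hA, map_smul, smul_eq_mul]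
  rw [e1, fderiv_const_mul, ContinuousLinearMap.smul_apply,
    fderiv_comp_affine (test_diff_fderiv hφ v), hA, map_smul, smul_eq_mul, smul_eq_mul]
  · ring
  · have h1 : DifferentiableAt ℝ (fun x => A x + b) x := A.differentiableAt.add_const b
    exact DifferentiableAt.comp (f := fun x => A x + b) (g := fun z => fderiv ℝ φ z v) x
      (test_diff_fderiv hφ v _) h1

theorem lap_comp_affine {φ : ℂ → ℝ} (hφ : φ ∈ Test Set.univ) (A : ℂ ≃L[ℝ] ℂ) (b x : ℂ) (s t : ℝ)
    (h1 : A 1 = s • (1 : ℂ)) (hI : A I = t • I) (hst : s ^ 2 = t ^ 2) :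
    lap (fun x => φ (A x + b)) x = s ^ 2 * lap φ (A x + b) := by
  unfold lap
  rw [second_comp hφ A b 1 x s h1, second_comp hφ A b I x t hI, ← hst]
  ring

theorem test_comp_affine {φ : ℂ → ℝ} {D D' : Set ℂ} (hφ : φ ∈ Test D) (A : ℂ ≃L[ℝ] ℂ) (b : ℂ)
    (hD : ∀ x, A x + b ∈ D → x ∈ D') : (fun x => φ (A x + b)) ∈ Test D' := by
  set T : ℂ ≃ₜ ℂ := A.toHomeomorph.trans (Homeomorph.addRight b) with hT
  have e : (fun x => φ (A x + b)) = φ ∘ T := rfl
  refine ⟨hφ.1.comp (A.contDiff.add contDiff_const), ?_, ?_⟩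
  · rw [e]
    exact hφ.2.1.comp_homeomorph T
  · rw [e, tsupport_comp_eq_preimage φ T]
    intro x hx
    exact hD x (hφ.2.2 hx)

theorem test_lap {φ : ℂ → ℝ} {D : Set ℂ} (hφ : φ ∈ Test D) : lap φ ∈ Test D :=
  (Test D).add_mem (H55.test_fderiv (H55.test_fderiv hφ 1) 1)
    (H55.test_fderiv (H55.test_fderiv hφ I) I)

theorem test_helm {φ : ℂ → ℝ} {D : Set ℂ} (hφ : φ ∈ Test D) (κ : ℝ) :
    (fun x => κ ^ 2 * φ x - lap φ x) ∈ Test D :=
  (Test D).sub_mem ((Test D).smul_mem (κ ^ 2) hφ) (test_lap hφ)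

/-! ### superpositions over the half-line -/

theorem fin_super {E : Type*} [NormedAddCommGroup E] (Φ : ℝ → ℂ → E) {A C k a : ℝ} (hk : 0 < k)
    (ha : 0 < a) (hA : 0 ≤ A)
    (hb : ∀ u, 0 < u → ∀ x, ‖Φ u x‖ ≤ A * (ep k u * Real.exp (C * u)) * H97.qf a x) :
    ∫⁻ u in Set.Ioi (0 : ℝ), eLpNorm (Φ u) 2 volume < ⊤ := by
  set N : ℝ≥0∞ := eLpNorm (H97.qf a) 2 volume with hN
  have hNt : N < ⊤ := (H97.memLp_qf ha).2
  have h1 : ∀ u, 0 < u → eLpNorm (Φ u) 2 volume
      ≤ ENNReal.ofReal (A * (ep k u * Real.exp (C * u))) * N := by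
    intro u hu
    have h0 : 0 ≤ A * (ep k u * Real.exp (C * u)) :=
      mul_nonneg hA (mul_pos (H97.ep_pos _ _) (Real.exp_pos _)).le
    have h2 := eLpNorm_const_smul (A * (ep k u * Real.exp (C * u))) (H97.qf a) 2
      (volume : Measure ℂ)
    rw [Real.enorm_eq_ofReal h0] at h2
    rw [← h2]
    refine eLpNorm_mono_real fun x => ?_
    exact hb u hu x
  calc ∫⁻ u in Set.Ioi (0 : ℝ), eLpNorm (Φ u) 2 volume
      ≤ ∫⁻ u in Set.Ioi (0 : ℝ), ENNReal.ofReal (A * (ep k u * Real.exp (C * u))) * N :=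
        setLIntegral_mono' measurableSet_Ioi fun u hu => h1 u hu
    _ = (∫⁻ u in Set.Ioi (0 : ℝ), ENNReal.ofReal (A * (ep k u * Real.exp (C * u)))) * N :=
        lintegral_mul_const' _ _ hNt.ne
    _ < ⊤ := ENNReal.mul_lt_top
        (((H97.integrableOn_ep k C hk).const_mul A).lintegral_lt_top) hNt

/-! ### the coefficients of the data -/

/-- the coefficient function of `h` -/
noncomputable def hh (κ : ℝ) (h : ℂ → ℝ) (w : ℝ) : ℝ := ∫ x in Hh, h x * dec w ((κ : ℂ) * x)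

theorem isOpen_Hh : IsOpen Hh := isOpen_lt continuous_const Complex.continuous_im

theorem measurable_dec (κ : ℝ) : Measurable (fun p : ℝ × ℂ => dec p.1 ((κ : ℂ) * p.2)) := by
  unfold dec
  refine Continuous.measurable ?_
  have h1 : Continuous (fun p : ℝ × ℂ => ((κ : ℂ) * p.2).re) := by fun_prop
  have h2 : Continuous (fun p : ℝ × ℂ => ((κ : ℂ) * p.2).im) := by fun_prop
  exact (Real.continuous_exp.comp (h1.mul (Real.continuous_cosh.comp continuous_fst)).neg).mul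
    (Real.continuous_sin.comp (h2.mul (Real.continuous_sinh.comp continuous_fst)))

theorem measurable_hh {κ : ℝ} {h : ℂ → ℝ} (hm : Measurable h) : Measurable (hh κ h) := by
  have h1 : Measurable (fun p : ℝ × ℂ => h p.2 * dec p.1 ((κ : ℂ) * p.2)) :=
    (hm.comp measurable_snd).mul (measurable_dec κ)
  exact (h1.stronglyMeasurable.integral_prod_right (ν := volume.restrict Hh)).measurable

theorem abs_dec_le {κ : ℝ} (hκ : 0 < κ) {w ρ : ℝ} {x : ℂ} (hx : ρ ≤ x.re) :
    |dec w ((κ : ℂ) * x)| ≤ ep (κ * ρ) w := by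
  unfold dec ep
  rw [abs_mul, abs_of_pos (Real.exp_pos _)]
  have h1 := Real.abs_sin_le_one (((κ : ℂ) * x).im * Real.sinh w)
  have h2 : Real.exp (-(((κ : ℂ) * x).re * Real.cosh w)) ≤ Real.exp (-(κ * ρ * Real.cosh w)) := by
    refine Real.exp_le_exp.2 ?_
    rw [Complex.re_ofReal_mul]
    have h3 : κ * ρ ≤ κ * x.re := mul_le_mul_of_nonneg_left hx hκ.le
    have h4 := mul_le_mul_of_nonneg_right h3 (Real.cosh_pos w).le
    linarith
  calc Real.exp (-(((κ : ℂ) * x).re * Real.cosh w)) * |Real.sin (((κ : ℂ) * x).im * Real.sinh w)|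
      ≤ Real.exp (-(((κ : ℂ) * x).re * Real.cosh w)) * 1 :=
        mul_le_mul_of_nonneg_left h1 (Real.exp_pos _).le
    _ ≤ Real.exp (-(κ * ρ * Real.cosh w)) := by rw [mul_one]; exact h2

theorem abs_hh_le {κ : ℝ} (hκ : 0 < κ) {h : ℂ → ℝ} {ρ : ℝ} (hi : Integrable h)
    (hs : ∀ x, h x ≠ 0 → ρ ≤ x.re) (w : ℝ) :
    |hh κ h w| ≤ (∫ x, |h x|) * ep (κ * ρ) w := by
  have h1 : ∀ x, |h x * dec w ((κ : ℂ) * x)| ≤ |h x| * ep (κ * ρ) w := by
    intro x
    rw [abs_mul]
    by_cases h0 : h x = 0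
    · rw [h0, abs_zero, zero_mul, zero_mul]
    · exact mul_le_mul_of_nonneg_left (abs_dec_le hκ (hs x h0)) (abs_nonneg _)
  have h2 : Integrable (fun x => |h x| * ep (κ * ρ) w) := hi.abs.mul_const _
  calc |hh κ h w| ≤ ∫ x in Hh, |h x * dec w ((κ : ℂ) * x)| := abs_integral_le_integral_abs
    _ ≤ ∫ x in Hh, |h x| * ep (κ * ρ) w := by
        refine integral_mono_of_nonneg (Eventually.of_forall fun x => abs_nonneg _)
          h2.integrableOn (Eventually.of_forall h1)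
    _ ≤ ∫ x, |h x| * ep (κ * ρ) w := setIntegral_le_integral h2
        (Eventually.of_forall fun x => mul_nonneg (abs_nonneg _) (H97.ep_pos _ _).le)
    _ = (∫ x, |h x|) * ep (κ * ρ) w := integral_mul_const _ _

/-! ### the wedge -/

section wedge

variable {β : ℝ}

theorem isOpen_W1 (β : ℝ) : IsOpen (W1 β) :=
  (isOpen_lt continuous_const Complex.continuous_im).inter
    (isOpen_lt continuous_const ((Complex.continuous_re.mul continuous_const).add
      (Complex.continuous_im.mul continuous_const)))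

theorem convex_W1 (β : ℝ) : Convex ℝ (W1 β) := by
  intro x hx y hy a b ha hb hab
  obtain ⟨h1, h2⟩ := hx
  obtain ⟨h3, h4⟩ := hy
  refine ⟨?_, ?_⟩
  · simp only [Complex.add_im, Complex.smul_im, smul_eq_mul]
    rcases ha.eq_or_lt with h | h
    · have hb1 : b = 1 := by linarith
      rw [← h, hb1]; linarith
    · have := mul_pos h h1
      have := mul_nonneg hb h3.le
      linarith
  · simp only [Complex.add_im, Complex.smul_im, Complex.add_re, Complex.smul_re, smul_eq_mul]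
    have e : (a * x.re + b * y.re) * Real.sin β + (a * x.im + b * y.im) * Real.cos β
      = a * (x.re * Real.sin β + x.im * Real.cos β)
        + b * (y.re * Real.sin β + y.im * Real.cos β) := by ring
    rw [e]
    rcases ha.eq_or_lt with h | h
    · have hb1 : b = 1 := by linarith
      rw [← h, hb1]; linarith
    · have := mul_pos h h2
      have := mul_nonneg hb h4.le
      linarith

theorem sin_cos_pos (h0 : 0 < β) (h1 : β < Real.pi / 3) : 0 < Real.sin β ∧ 0 < Real.cos β := by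
  have hpi := Real.pi_pos
  exact ⟨Real.sin_pos_of_pos_of_lt_pi h0 (by linarith),
    Real.cos_pos_of_mem_Ioo ⟨by linarith, by linarith⟩⟩

theorem nonempty_W1 (h0 : 0 < β) (h1 : β < Real.pi / 3) : (W1 β).Nonempty := by
  obtain ⟨hs, hc⟩ := sin_cos_pos h0 h1
  refine ⟨I, ?_, ?_⟩
  · simp
  · simp only [Complex.I_re, Complex.I_im, zero_mul, one_mul, zero_add]
    exact hc

theorem W1_sub_Hh (β : ℝ) : W1 β ⊆ Hh := fun _ hx => hx.1

theorem W1_dil {κ : ℝ} (hκ : 0 < κ) {x : ℂ} : (κ : ℂ) * x ∈ W1 β ↔ x ∈ W1 β := by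
  unfold W1
  simp only [Set.mem_setOf_eq, Complex.re_ofReal_mul, Complex.im_ofReal_mul]
  have e : κ * x.re * Real.sin β + κ * x.im * Real.cos β
      = κ * (x.re * Real.sin β + x.im * Real.cos β) := by ring
  rw [e, mul_pos_iff_of_pos_left hκ, mul_pos_iff_of_pos_left hκ]

theorem re_le_of_not_W1 (h0 : 0 < β) (h1 : β < Real.pi / 3) {x : ℂ} (hx : 0 < x.im)
    (hw : x ∉ W1 β) : x.re ≤ 0 := by
  obtain ⟨hs, hc⟩ := sin_cos_pos h0 h1
  by_contra hcon
  push Not at hcon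
  exact hw ⟨hx, add_pos (mul_pos hcon hs) (mul_pos hx hc)⟩

end wedge

theorem convex_Hh : Convex ℝ Hh := by
  intro x hx y hy a b ha hb hab
  have h1 : 0 < x.im := hx
  have h3 : 0 < y.im := hy
  show 0 < (a • x + b • y).im
  simp only [Complex.add_im, Complex.smul_im, smul_eq_mul]
  rcases ha.eq_or_lt with h | h
  · have hb1 : b = 1 := by linarith
    rw [← h, hb1]; linarith
  · have := mul_pos h h1
    have := mul_nonneg hb h3.le
    linarith

theorem nonempty_Hh : Hh.Nonempty := ⟨I, by show 0 < Complex.I.im; simp⟩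

/-! ### the wedge functions -/

section wp

variable {β κ : ℝ} {S : ℝ → ℂ → ℝ}

theorem Sl_bound (hS : WP β S) (hκ : 0 < κ) : ∃ C a : ℝ, 0 ≤ C ∧ 0 < a ∧ ∀ u, 0 < u → ∀ x,
    |Sl κ S u x| ≤ C * Real.exp (C * u) * H97.qf a x := by
  obtain ⟨C, c, hc, hb⟩ := hS.bound
  refine ⟨C, c * κ, ?_, mul_pos hc hκ, ?_⟩
  · have h1 := hb 1 one_pos 0
    rw [mul_assoc] at h1
    exact H97.nonneg_of_bound (mul_pos (Real.exp_pos _) (Real.exp_pos _)) h1
  · intro u hu x
    have h1 := hb u hu ((κ : ℂ) * x)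
    rw [norm_mul, Complex.norm_real, Real.norm_of_nonneg hκ.le, ← mul_assoc c κ] at h1
    exact h1

/-- the superposition of wedge functions which belongs to `h` -/
noncomputable def wh (κ : ℝ) (S : ℝ → ℂ → ℝ) (h : ℂ → ℝ) (x : ℂ) : ℝ :=
  1 / Real.pi * ∫ w in Set.Ioi (0 : ℝ), hh κ h w * Sl κ S w x

theorem meas_F (hS : WP β S) {h : ℂ → ℝ} (hm : Measurable h) :
    Measurable (Function.uncurry fun w x => hh κ h w * Sl κ S w x) :=
  ((measurable_hh hm).comp measurable_fst).mul (H97.measurable_Sl hS.meas)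

theorem fin_F (hS : WP β S) (hκ : 0 < κ) {h : ℂ → ℝ} {ρ : ℝ} (hρ : 0 < ρ) (hi : Integrable h)
    (hs : ∀ x, h x ≠ 0 → ρ ≤ x.re) :
    ∫⁻ w in Set.Ioi (0 : ℝ), eLpNorm (fun x => hh κ h w * Sl κ S w x) 2 volume < ⊤ := by
  obtain ⟨C, a, hC, ha, hb⟩ := Sl_bound hS hκ
  refine fin_super (fun w x => hh κ h w * Sl κ S w x) (A := (∫ x, |h x|) * C) (C := C)
    (k := κ * ρ) (a := a) (mul_pos hκ hρ) ha (mul_nonneg (integral_nonneg fun x => abs_nonneg _) hC)
    fun u hu x => ?_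
  rw [Real.norm_eq_abs, abs_mul]
  calc |hh κ h u| * |Sl κ S u x|
      ≤ ((∫ x, |h x|) * ep (κ * ρ) u) * (C * Real.exp (C * u) * H97.qf a x) :=
        mul_le_mul (abs_hh_le hκ hi hs u) (hb u hu x) (abs_nonneg _)
          (mul_nonneg (integral_nonneg fun x => abs_nonneg _) (H97.ep_pos _ _).le)
    _ = _ := by ring

theorem grad_wh (hS : WP β S) (hκ : 0 < κ) {h : ℂ → ℝ} {ρ : ℝ} (hρ : 0 < ρ) (hm : Measurable h)
    (hi : Integrable h) (hs : ∀ x, h x ≠ 0 → ρ ≤ x.re) : ∃ g, Grad (wh κ S h) g := by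
  obtain ⟨g, C, c, hc, hgm, hgr, hgb⟩ := hS.grad
  have hC : 0 ≤ C := by
    have h1 := hgb 1 one_pos 0
    rw [mul_assoc] at h1
    have h2 : |‖g 1 0‖| ≤ C * (Real.exp (C * 1) * Real.exp (-(c * ‖(0 : ℂ)‖))) := by
      rw [abs_norm]; exact h1
    exact H97.nonneg_of_bound (mul_pos (Real.exp_pos _) (Real.exp_pos _)) h2
  have hg0 : Measurable (Function.uncurry fun w x => (κ : ℂ) * g w ((κ : ℂ) * x)) := by
    have h1 : Measurable (fun p : ℝ × ℂ => (p.1, (κ : ℂ) * p.2)) := by fun_prop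
    exact measurable_const.mul (hgm.comp h1)
  have hmG : Measurable (Function.uncurry fun w x => (hh κ h w : ℂ) *
      ((κ : ℂ) * g w ((κ : ℂ) * x))) :=
    (Complex.measurable_ofReal.comp ((measurable_hh hm).comp measurable_fst)).mul hg0
  have hfin : ∫⁻ w in Set.Ioi (0 : ℝ), eLpNorm (fun x => (hh κ h w : ℂ) *
      ((κ : ℂ) * g w ((κ : ℂ) * x))) 2 volume < ⊤ := by
    refine fin_super (fun w x => (hh κ h w : ℂ) * ((κ : ℂ) * g w ((κ : ℂ) * x)))
      (A := (∫ x, |h x|) * (κ * C)) (C := C)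
      (k := κ * ρ) (a := c * κ) (mul_pos hκ hρ) (mul_pos hc hκ)
      (mul_nonneg (integral_nonneg fun x => abs_nonneg _) (mul_nonneg hκ.le hC))
      fun u hu x => ?_
    rw [norm_mul, norm_mul, Complex.norm_real, Complex.norm_real, Real.norm_eq_abs,
      Real.norm_of_nonneg hκ.le]
    have h1 := hgb u hu ((κ : ℂ) * x)
    rw [norm_mul, Complex.norm_real, Real.norm_of_nonneg hκ.le, ← mul_assoc c κ] at h1
    have h2 := mul_le_mul_of_nonneg_left h1 hκ.le
    calc |hh κ h u| * (κ * ‖g u ((κ : ℂ) * x)‖)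
        ≤ ((∫ x, |h x|) * ep (κ * ρ) u)
          * (κ * (C * Real.exp (C * u) * Real.exp (-(c * κ * ‖x‖)))) :=
          mul_le_mul (abs_hh_le hκ hi hs u) h2 (mul_nonneg hκ.le (norm_nonneg _))
            (mul_nonneg (integral_nonneg fun x => abs_nonneg _) (H97.ep_pos _ _).le)
      _ = (∫ x, |h x|) * (κ * C) * (ep (κ * ρ) u * Real.exp (C * u)) * H97.qf (c * κ) x := by
          unfold H97.qf; ring
  have hgrad : Grad (fun x => ∫ w in Set.Ioi (0 : ℝ), hh κ h w * Sl κ S w x)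
      (fun x => ∫ w in Set.Ioi (0 : ℝ), (hh κ h w : ℂ) * ((κ : ℂ) * g w ((κ : ℂ) * x))) := by
    refine H55.grad_super (meas_F hS hm) hmG ?_ (fin_F hS hκ hρ hi hs) hfin
    filter_upwards [ae_restrict_mem measurableSet_Ioi] with w hw
    have h1 := H55.grad_dil (hgr w hw) hκ 0
    have h2 := H55.grad_lin (hh κ h w) 0 h1 h1
    simpa [Sl] using h2
  have h3 := H55.grad_lin (1 / Real.pi) 0 hgrad hgrad
  refine ⟨_, H55.grad_congr h3 (Eventually.of_forall fun x => ?_) (EventuallyEq.refl _ _)⟩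
  show 1 / Real.pi * _ + 0 * _ = wh κ S h x
  rw [zero_mul, add_zero]
  rfl

/-- the wedge functions satisfy the equation in the wedge -/
theorem Sl_harm (hS : WP β S) (hκ : 0 < κ) {u : ℝ} (hu : 0 < u) {φ : ℂ → ℝ}
    (hφ : φ ∈ Test (W1 β)) : ∫ x, Sl κ S u x * (κ ^ 2 * φ x - lap φ x) = 0 := by
  have hk' : 0 < κ⁻¹ := inv_pos.2 hκ
  have ht : (fun x => φ (H55.dilE κ⁻¹ hk' x + 0)) ∈ Test (W1 β) := by
    refine test_comp_affine hφ _ 0 fun x hx => ?_
    rw [add_zero, H55.dilE_apply] at hx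
    exact (W1_dil hk').1 hx
  have hl : ∀ x, lap (fun x => φ (H55.dilE κ⁻¹ hk' x + 0)) x
      = κ⁻¹ ^ 2 * lap φ (H55.dilE κ⁻¹ hk' x + 0) := by
    intro x
    refine lap_comp_affine (H55.test_univ hφ) _ 0 x κ⁻¹ κ⁻¹ ?_ ?_ rfl
    · rw [H55.dilE_apply, Complex.real_smul]
    · rw [H55.dilE_apply, Complex.real_smul]
  have h1 := hS.harm u hu _ ht
  set Ψ : ℂ → ℝ := fun x => S u x * ((fun x => φ (H55.dilE κ⁻¹ hk' x + 0)) x
    - lap (fun x => φ (H55.dilE κ⁻¹ hk' x + 0)) x) with hΨ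
  have h2 : ∀ x, Sl κ S u x * (κ ^ 2 * φ x - lap φ x) = κ ^ 2 * Ψ (κ • x) := by
    intro x
    have e1 : H55.dilE κ⁻¹ hk' (κ • x) + 0 = x := by
      rw [H55.dilE_apply, add_zero, Complex.real_smul, ← mul_assoc, ← Complex.ofReal_mul,
        inv_mul_cancel₀ hκ.ne', Complex.ofReal_one, one_mul]
    show S u ((κ : ℂ) * x) * _ = κ ^ 2 * (S u (κ • x) * (φ (H55.dilE κ⁻¹ hk' (κ • x) + 0)
      - lap (fun x => φ (H55.dilE κ⁻¹ hk' x + 0)) (κ • x)))
    rw [hl, e1, Complex.real_smul]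
    have e2 : κ ^ 2 * (κ⁻¹ ^ 2) = 1 := by
      rw [← mul_pow, mul_inv_cancel₀ hκ.ne', one_pow]
    linear_combination (S u ((κ : ℂ) * x) * lap φ x) * e2
  simp only [h2]
  rw [integral_const_mul, Measure.integral_comp_smul]
  have h3 : ∫ x, Ψ x = 0 := h1
  rw [h3, smul_zero, mul_zero]

theorem wh_harm (hS : WP β S) (hκ : 0 < κ) {h : ℂ → ℝ} {ρ : ℝ} (hρ : 0 < ρ) (hm : Measurable h)
    (hi : Integrable h) (hs : ∀ x, h x ≠ 0 → ρ ≤ x.re) {φ : ℂ → ℝ}
    (hφ : φ ∈ Test (W1 β)) : ∫ x, wh κ S h x * (κ ^ 2 * φ x - lap φ x) = 0 := by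
  have h1 := H55.integral_superposition (μ := volume.restrict (Set.Ioi (0 : ℝ)))
    (F := fun w x => hh κ h w * Sl κ S w x)
    (meas_F hS hm).stronglyMeasurable (fin_F hS hκ hρ hi hs)
    (H55.test_memLp (test_helm hφ κ) 2)
  have h2 : ∀ w, 0 < w → ∫ x, (κ ^ 2 * φ x - lap φ x) • (hh κ h w * Sl κ S w x) = 0 := by
    intro w hw
    have e : ∀ x, (κ ^ 2 * φ x - lap φ x) • (hh κ h w * Sl κ S w x)
        = hh κ h w * (Sl κ S w x * (κ ^ 2 * φ x - lap φ x)) := by
      intro x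
      rw [smul_eq_mul]; ring
    simp only [e]
    rw [integral_const_mul, Sl_harm hS hκ hw hφ, mul_zero]
  have h3 : ∫ w in Set.Ioi (0 : ℝ), ∫ x, (κ ^ 2 * φ x - lap φ x) • (hh κ h w * Sl κ S w x) = 0 := by
    rw [setIntegral_congr_fun measurableSet_Ioi (g := fun _ => (0 : ℝ)) fun w hw => h2 w hw]
    simp
  have e2 : ∀ x, wh κ S h x * (κ ^ 2 * φ x - lap φ x) = 1 / Real.pi *
      ((κ ^ 2 * φ x - lap φ x) • ∫ w in Set.Ioi (0 : ℝ), hh κ h w * Sl κ S w x) := by
    intro x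
    unfold wh
    rw [smul_eq_mul]; ring
  simp only [e2]
  rw [integral_const_mul, h1, h3, mul_zero]

theorem sol_W1 (hHALF : HalfStatement) (h0 : 0 < β) (h1 : β < Real.pi / 3) (hS : WP β S)
    (hκ : 0 < κ) {h u : ℂ → ℝ} {ρ : ℝ} (hρ : 0 < ρ) (hm : Measurable h)
    (hM : ∃ M, ∀ x, |h x| ≤ M) (hcs : HasCompactSupport h) (hts : tsupport h ⊆ {x | 0 < x.re})
    (hi : Integrable h) (hs : ∀ x, h x ≠ 0 → ρ ≤ x.re) (hu : Sol κ Hh h u) :
    Sol κ (W1 β) h (fun x => u x - wh κ S h x) := by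
  obtain ⟨gu, hgu⟩ := hu.mem.1
  obtain ⟨gw, hgw⟩ := grad_wh hS hκ hρ hm hi hs
  refine ⟨⟨⟨_, H55.grad_congr (H55.grad_lin 1 (-1) hgu hgw)
    (Eventually.of_forall fun x => ?_) (EventuallyEq.refl _ _)⟩, ?_⟩, fun φ hφ => ?_⟩
  · show 1 * u x + -1 * wh κ S h x = u x - wh κ S h x
    ring
  · filter_upwards [hu.mem.2, (hHALF κ 0 h u hκ hm hM hcs hu).2 hts] with x hx1 hx2 hx
    by_cases hxi : 0 < x.im
    · rw [hx2 (re_le_of_not_W1 h0 h1 hxi hx) hxi, sub_eq_zero]
      unfold wh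
      congr 1
      refine setIntegral_congr_fun measurableSet_Ioi fun w hw => ?_
      show (∫ x in Hh, h x * dec w ((κ : ℂ) * x)) * EE w ((κ : ℂ) * x)
        = hh κ h w * S w ((κ : ℂ) * x)
      rw [hS.beyond w hw ((κ : ℂ) * x) (by rw [Complex.im_ofReal_mul]; exact mul_pos hκ hxi)
        (fun h => hx ((W1_dil hκ).1 h))]
      rfl
    · rw [hx1 hxi]
      push Not at hxi
      have h2 : wh κ S h x = 0 := by
        unfold wh
        rw [setIntegral_congr_fun measurableSet_Ioi (g := fun _ => (0 : ℝ))]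
        · simp
        · intro w hw
          show hh κ h w * S w ((κ : ℂ) * x) = 0
          rw [hS.out w hw ((κ : ℂ) * x) (by
            rw [Complex.im_ofReal_mul]; exact mul_nonpos_of_nonneg_of_nonpos hκ.le hxi), mul_zero]
      rw [h2, sub_zero]
  · have hφH : φ ∈ Test Hh := ⟨hφ.1, hφ.2.1, hφ.2.2.trans (W1_sub_Hh β)⟩
    have i1 := H55.integrable_mul2 hgu.memf (H55.test_memLp (test_helm hφ κ) 2)
    have i2 := H55.integrable_mul2 hgw.memf (H55.test_memLp (test_helm hφ κ) 2)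
    have e : ∫ x, (u x - wh κ S h x) * (κ ^ 2 * φ x - lap φ x)
        = (∫ x, u x * (κ ^ 2 * φ x - lap φ x)) - ∫ x, wh κ S h x * (κ ^ 2 * φ x - lap φ x) := by
      rw [← integral_sub i1 i2]
      refine integral_congr_ae (Eventually.of_forall fun x => ?_)
      show (u x - wh κ S h x) * (κ ^ 2 * φ x - lap φ x)
        = u x * (κ ^ 2 * φ x - lap φ x) - wh κ S h x * (κ ^ 2 * φ x - lap φ x)
      ring
    rw [e, hu.eq φ hφH, wh_harm hS hκ hρ hm hi hs hφ, sub_zero]

theorem dual (hRES : ResStatement) (hHALF : HalfStatement) (h0 : 0 < β) (h1 : β < Real.pi / 3)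
    (hS : WP β S) (hκ : 0 < κ) {f uH u1 h : ℂ → ℝ} {ρ : ℝ} (hρ : 0 < ρ) (hm : Measurable h)
    (hM : ∃ M, ∀ x, |h x| ≤ M) (hcs : HasCompactSupport h) (hts : tsupport h ⊆ {x | 0 < x.re})
    (hi : Integrable h) (h2 : MemLp h 2 volume) (hs : ∀ x, h x ≠ 0 → ρ ≤ x.re)
    (hf : MemLp f 2 volume) (hH : Sol κ Hh f uH) (hW : Sol κ (W1 β) f u1) :
    ∫ x, (uH x - u1 x) * h x = ∫ x, f x * wh κ S h x := by
  obtain ⟨hex, huq, hsym⟩ := hRES κ Hh hκ isOpen_Hh convex_Hh nonempty_Hh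
  obtain ⟨_, _, hsym1⟩ := hRES κ (W1 β) hκ (isOpen_W1 β) (convex_W1 β) (nonempty_W1 h0 h1)
  obtain ⟨u, hu⟩ := hex h h2
  have hv := sol_W1 hHALF h0 h1 hS hκ hρ hm hM hcs hts hi hs hu
  have e1 := hsym f h uH u hf h2 hH hu
  have e2 := hsym1 f h u1 _ hf h2 hW hv
  obtain ⟨gH, hgH⟩ := hH.mem.1
  obtain ⟨g1, hg1⟩ := hW.mem.1
  obtain ⟨gu, hgu⟩ := hu.mem.1
  obtain ⟨gv, hgv⟩ := hv.mem.1
  have i1 := H55.integrable_mul2 hgH.memf h2
  have i2 := H55.integrable_mul2 hg1.memf h2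
  have i3 := H55.integrable_mul2 hf hgu.memf
  have i4 := H55.integrable_mul2 hf hgv.memf
  have a1 : ∫ x, (uH x - u1 x) * h x = (∫ x, uH x * h x) - ∫ x, u1 x * h x := by
    rw [← integral_sub i1 i2]
    refine integral_congr_ae (Eventually.of_forall fun x => ?_)
    show (uH x - u1 x) * h x = uH x * h x - u1 x * h x
    ring
  have a2 : ∫ x, f x * wh κ S h x = (∫ x, f x * u x) - ∫ x, f x * (u x - wh κ S h x) := by
    rw [← integral_sub i3 i4]
    refine integral_congr_ae (Eventually.of_forall fun x => ?_)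
    show f x * wh κ S h x = f x * u x - f x * (u x - wh κ S h x)
    ring
  rw [a1, a2, e1, e2]

/-! ### the integral operator -/

/-- integral of the data against the wedge functions -/
noncomputable def JJ (κ : ℝ) (S : ℝ → ℂ → ℝ) (f : ℂ → ℝ) (w : ℝ) : ℝ := ∫ y, Sl κ S w y * f y

/-- the difference of the resolvents -/
noncomputable def DD (κ : ℝ) (S : ℝ → ℂ → ℝ) (f : ℂ → ℝ) (x : ℂ) : ℝ :=
  1 / Real.pi * ∫ w in Set.Ioi (0 : ℝ), dec w ((κ : ℂ) * x) * JJ κ S f w

theorem measurable_JJ (hS : WP β S) {f : ℂ → ℝ} (hf : AEStronglyMeasurable f volume) :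
    Measurable (JJ κ S f) := by
  have e : JJ κ S f = fun w => ∫ y, Sl κ S w y * hf.mk f y := by
    funext w
    refine integral_congr_ae ?_
    filter_upwards [hf.ae_eq_mk] with y hy
    rw [hy]
  rw [e]
  have h1 : Measurable (fun p : ℝ × ℂ => Sl κ S p.1 p.2 * hf.mk f p.2) :=
    (H97.measurable_Sl hS.meas).mul (hf.stronglyMeasurable_mk.measurable.comp measurable_snd)
  exact (h1.stronglyMeasurable.integral_prod_right (ν := volume)).measurable

theorem JJ_bound (hS : WP β S) (hκ : 0 < κ) {f : ℂ → ℝ} (hf : MemLp f 2 volume) :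
    ∃ A C : ℝ, 0 ≤ A ∧ ∀ w, 0 < w → |JJ κ S f w| ≤ A * Real.exp (C * w) := by
  obtain ⟨C, a, hC, ha, hb⟩ := Sl_bound hS hκ
  have hi : Integrable (fun y => H97.qf a y * |f y|) :=
    H55.integrable_mul2 (H97.memLp_qf ha) hf.abs
  refine ⟨C * ∫ y, H97.qf a y * |f y|, C, mul_nonneg hC (integral_nonneg fun y =>
    mul_nonneg (H97.qf_pos _ _).le (abs_nonneg _)), fun w hw => ?_⟩
  calc |JJ κ S f w| ≤ ∫ y, |Sl κ S w y * f y| := abs_integral_le_integral_abs
    _ ≤ ∫ y, C * Real.exp (C * w) * (H97.qf a y * |f y|) := by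
        refine integral_mono_of_nonneg (Eventually.of_forall fun x => abs_nonneg _)
          (hi.const_mul _) (Eventually.of_forall fun y => ?_)
        show |Sl κ S w y * f y| ≤ C * Real.exp (C * w) * (H97.qf a y * |f y|)
        rw [abs_mul, ← mul_assoc]
        exact mul_le_mul_of_nonneg_right (hb w hw y) (abs_nonneg _)
    _ = C * (∫ y, H97.qf a y * |f y|) * Real.exp (C * w) := by
        rw [integral_const_mul]; ring

theorem fub (hS : WP β S) (hκ : 0 < κ) {f h : ℂ → ℝ} {ρ : ℝ} (hρ : 0 < ρ) (hm : Measurable h)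
    (hi : Integrable h) (hs : ∀ x, h x ≠ 0 → ρ ≤ x.re) (hH : ∀ x, h x ≠ 0 → x ∈ Hh)
    (hf : MemLp f 2 volume) : ∫ x, f x * wh κ S h x = ∫ x, h x * DD κ S f x := by
  have h1 := H55.integral_superposition (μ := volume.restrict (Set.Ioi (0 : ℝ)))
    (F := fun w x => hh κ h w * Sl κ S w x)
    (meas_F hS hm).stronglyMeasurable (fin_F hS hκ hρ hi hs) hf
  have e1 : ∫ x, f x * wh κ S h x
      = 1 / Real.pi * ∫ w in Set.Ioi (0 : ℝ), hh κ h w * JJ κ S f w := by
    have e2 : ∀ x, f x * wh κ S h x = 1 / Real.pi *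
        (f x • ∫ w in Set.Ioi (0 : ℝ), hh κ h w * Sl κ S w x) := by
      intro x
      unfold wh
      rw [smul_eq_mul]; ring
    simp only [e2]
    rw [integral_const_mul, h1]
    congr 1
    refine setIntegral_congr_fun measurableSet_Ioi fun w hw => ?_
    show ∫ x, f x • (hh κ h w * Sl κ S w x) = hh κ h w * JJ κ S f w
    unfold JJ
    rw [← integral_const_mul]
    refine integral_congr_ae (Eventually.of_forall fun x => ?_)
    show f x • (hh κ h w * Sl κ S w x) = hh κ h w * (Sl κ S w x * f x)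
    rw [smul_eq_mul]; ring
  obtain ⟨A, C, hA, hJ⟩ := JJ_bound hS hκ hf
  have hint : Integrable (Function.uncurry fun w x => h x * dec w ((κ : ℂ) * x) * JJ κ S f w)
      ((volume.restrict (Set.Ioi (0 : ℝ))).prod (volume.restrict Hh)) := by
    have hb : Integrable (fun p : ℝ × ℂ => (A * (ep (κ * ρ) p.1 * Real.exp (C * p.1))) * |h p.2|)
        ((volume.restrict (Set.Ioi (0 : ℝ))).prod (volume.restrict Hh)) :=
      Integrable.mul_prod (f := fun w => A * (ep (κ * ρ) w * Real.exp (C * w)))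
        (g := fun x => |h x|)
        ((H97.integrableOn_ep (κ * ρ) C (mul_pos hκ hρ)).const_mul A) hi.abs.integrableOn
    refine hb.mono' ?_ ?_
    · refine Measurable.aestronglyMeasurable ?_
      exact ((hm.comp measurable_snd).mul (measurable_dec κ)).mul
        ((measurable_JJ hS hf.1).comp measurable_fst)
    · have hae : ∀ᵐ p ∂((volume.restrict (Set.Ioi (0 : ℝ))).prod (volume.restrict Hh)),
          0 < p.1 := by
        have := (ae_restrict_mem (μ := volume) (measurableSet_Ioi (a := (0 : ℝ))))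
        exact Measure.quasiMeasurePreserving_fst.ae this
      filter_upwards [hae] with p hp
      show ‖h p.2 * dec p.1 ((κ : ℂ) * p.2) * JJ κ S f p.1‖ ≤ _
      rw [Real.norm_eq_abs, abs_mul, abs_mul]
      by_cases h3 : h p.2 = 0
      · rw [h3, abs_zero, zero_mul, zero_mul, mul_zero]
      · calc |h p.2| * |dec p.1 ((κ : ℂ) * p.2)| * |JJ κ S f p.1|
            ≤ |h p.2| * ep (κ * ρ) p.1 * (A * Real.exp (C * p.1)) :=
              mul_le_mul (mul_le_mul_of_nonneg_left (abs_dec_le hκ (hs _ h3)) (abs_nonneg _))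
                (hJ _ hp) (abs_nonneg _) (mul_nonneg (abs_nonneg _) (H97.ep_pos _ _).le)
          _ = _ := by ring
  have e3 : ∫ x, h x * DD κ S f x
      = 1 / Real.pi * ∫ w in Set.Ioi (0 : ℝ), hh κ h w * JJ κ S f w := by
    have e4 : ∫ x, h x * DD κ S f x = ∫ x in Hh, h x * DD κ S f x := by
      symm
      refine setIntegral_eq_integral_of_forall_compl_eq_zero fun x hx => ?_
      have : h x = 0 := by
        by_contra h4
        exact hx (hH x h4)
      rw [this, zero_mul]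
    have e5 : ∀ x, h x * DD κ S f x
        = 1 / Real.pi * ∫ w in Set.Ioi (0 : ℝ), h x * dec w ((κ : ℂ) * x) * JJ κ S f w := by
      intro x
      unfold DD
      have : ∫ w in Set.Ioi (0 : ℝ), h x * dec w ((κ : ℂ) * x) * JJ κ S f w
          = h x * ∫ w in Set.Ioi (0 : ℝ), dec w ((κ : ℂ) * x) * JJ κ S f w := by
        rw [← integral_const_mul]
        refine integral_congr_ae (Eventually.of_forall fun w => ?_)
        show h x * dec w ((κ : ℂ) * x) * JJ κ S f w = h x * (dec w ((κ : ℂ) * x) * JJ κ S f w)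
        ring
      rw [this]; ring
    rw [e4]
    simp only [e5]
    rw [integral_const_mul, ← integral_integral_swap hint]
    congr 1
    refine integral_congr_ae (Eventually.of_forall fun w => ?_)
    show ∫ x in Hh, h x * dec w ((κ : ℂ) * x) * JJ κ S f w = hh κ h w * JJ κ S f w
    rw [integral_mul_const]
    rfl
  rw [e1, e3]

theorem measurable_DD (hS : WP β S) {f : ℂ → ℝ} (hf : AEStronglyMeasurable f volume) :
    Measurable (DD κ S f) := by
  have h1 : Measurable (fun p : ℝ × ℂ => dec p.1 ((κ : ℂ) * p.2) * JJ κ S f p.1) :=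
    (measurable_dec κ).mul ((measurable_JJ hS hf).comp measurable_fst)
  have h2 : Measurable (fun p : ℂ × ℝ => dec p.2 ((κ : ℂ) * p.1) * JJ κ S f p.2) :=
    h1.comp measurable_swap
  have h3 := (StronglyMeasurable.integral_prod_right'
    (f := fun p : ℂ × ℝ => dec p.2 ((κ : ℂ) * p.1) * JJ κ S f p.2)
    (ν := volume.restrict (Set.Ioi (0 : ℝ))) h2.stronglyMeasurable).measurable
  exact measurable_const.mul h3

theorem DD_bound (hS : WP β S) (hκ : 0 < κ) {f : ℂ → ℝ} (hf : MemLp f 2 volume) {ρ : ℝ}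
    (hρ : 0 < ρ) : ∃ B : ℝ, ∀ x : ℂ, ρ ≤ x.re → |DD κ S f x| ≤ B := by
  obtain ⟨A, C, hA, hJ⟩ := JJ_bound hS hκ hf
  refine ⟨1 / Real.pi * ∫ w in Set.Ioi (0 : ℝ), A * (ep (κ * ρ) w * Real.exp (C * w)),
    fun x hx => ?_⟩
  unfold DD
  have hpi : 0 ≤ 1 / Real.pi := by positivity
  rw [abs_mul, abs_of_nonneg hpi]
  refine mul_le_mul_of_nonneg_left ?_ hpi
  refine abs_integral_le_integral_abs.trans ?_
  refine integral_mono_of_nonneg (Eventually.of_forall fun x => abs_nonneg _)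
    ((H97.integrableOn_ep (κ * ρ) C (mul_pos hκ hρ)).const_mul A) ?_
  filter_upwards [ae_restrict_mem measurableSet_Ioi] with w hw
  show |dec w ((κ : ℂ) * x) * JJ κ S f w| ≤ A * (ep (κ * ρ) w * Real.exp (C * w))
  rw [abs_mul]
  calc |dec w ((κ : ℂ) * x)| * |JJ κ S f w|
      ≤ ep (κ * ρ) w * (A * Real.exp (C * w)) :=
        mul_le_mul (abs_dec_le hκ hx) (hJ w hw) (abs_nonneg _) (H97.ep_pos _ _).le
    _ = _ := by ring

/-- the open quarter plane -/
def Qu : Set ℂ := {x | 0 < x.re ∧ 0 < x.im}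

theorem isOpen_Qu : IsOpen Qu :=
  (isOpen_lt continuous_const Complex.continuous_re).inter
    (isOpen_lt continuous_const Complex.continuous_im)

theorem exists_rho {K : Set ℂ} (hK : IsCompact K) (hKU : K ⊆ Qu) :
    ∃ ρ : ℝ, 0 < ρ ∧ ∀ x ∈ K, ρ ≤ x.re := by
  rcases K.eq_empty_or_nonempty with h | h
  · exact ⟨1, one_pos, fun x hx => by rw [h] at hx; exact hx.elim⟩
  · obtain ⟨x0, hx0, hmin⟩ := hK.exists_isMinOn h Complex.continuous_re.continuousOn
    exact ⟨x0.re, (hKU hx0).1, fun x hx => hmin hx⟩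

theorem left (hRES : ResStatement) (hHALF : HalfStatement) (h0 : 0 < β) (h1 : β < Real.pi / 3)
    (hS : WP β S) (hκ : 0 < κ) {f uH u1 : ℂ → ℝ}
    (hf : MemLp f 2 volume) (hH : Sol κ Hh f uH) (hW : Sol κ (W1 β) f u1) :
    ∀ᵐ x : ℂ, 0 < x.re → 0 < x.im → uH x - u1 x = DD κ S f x := by
  obtain ⟨gH, hgH⟩ := hH.mem.1
  obtain ⟨g1, hg1⟩ := hW.mem.1
  have hdif : MemLp (fun x => uH x - u1 x) 2 volume := hgH.memf.sub hg1.memf
  have hloc : LocallyIntegrableOn (fun x => (uH x - u1 x) - DD κ S f x) Qu volume := by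
    refine LocallyIntegrableOn.sub
      ((hdif.locallyIntegrable (by norm_num)).locallyIntegrableOn Qu) ?_
    rw [locallyIntegrableOn_iff isOpen_Qu.isLocallyClosed]
    intro K hKU hK
    obtain ⟨ρ, hρ, hre⟩ := exists_rho hK hKU
    obtain ⟨B, hB⟩ := DD_bound hS hκ hf hρ
    refine Measure.integrableOn_of_bounded (M := B) hK.measure_lt_top.ne
      (measurable_DD hS hf.1).aestronglyMeasurable ?_
    filter_upwards [ae_restrict_mem hK.measurableSet] with x hx
    exact hB x (hre x hx)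
  have key := isOpen_Qu.ae_eq_zero_of_integral_contDiff_smul_eq_zero hloc ?_
  · filter_upwards [key] with x hx hxr hxi
    have := hx ⟨hxr, hxi⟩
    linarith
  · intro ψ hψ1 hψ2 hψ3
    have ht : ψ ∈ Test Set.univ := ⟨hψ1, hψ2, Set.subset_univ _⟩
    obtain ⟨ρ, hρ, hre⟩ := exists_rho hψ2 hψ3
    have hs : ∀ x, ψ x ≠ 0 → ρ ≤ x.re := fun x hx => hre x (subset_tsupport ψ hx)
    have hHh : ∀ x, ψ x ≠ 0 → x ∈ Hh := fun x hx => (hψ3 (subset_tsupport ψ hx)).2
    have hm : Measurable ψ := hψ1.continuous.measurable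
    have hi : Integrable ψ := H55.test_integrable ht
    have h2 : MemLp ψ 2 volume := H55.test_memLp ht 2
    have hM : ∃ M, ∀ x, |ψ x| ≤ M := by
      obtain ⟨M, hM⟩ := hψ2.exists_bound_of_continuous hψ1.continuous
      exact ⟨M, hM⟩
    have e1 := dual hRES hHALF h0 h1 hS hκ hρ hm hM hψ2 (fun x hx => (hψ3 hx).1) hi h2 hs hf hH hW
    rw [fub hS hκ hρ hm hi hs hHh hf] at e1
    have i1 := H55.integrable_mul2 hdif h2
    have i2 : Integrable (fun x => ψ x * DD κ S f x) := by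
      obtain ⟨B, hB⟩ := DD_bound hS hκ hf hρ
      refine (hi.abs.mul_const B).mono' ?_ ?_
      · exact (hm.mul (measurable_DD hS hf.1)).aestronglyMeasurable
      · refine Eventually.of_forall fun x => ?_
        show ‖ψ x * DD κ S f x‖ ≤ |ψ x| * B
        rw [Real.norm_eq_abs, abs_mul]
        by_cases h3 : ψ x = 0
        · rw [h3, abs_zero, zero_mul, zero_mul]
        · exact mul_le_mul_of_nonneg_left (hB x (hs x h3)) (abs_nonneg _)
    have e2 : ∫ x, ψ x • ((uH x - u1 x) - DD κ S f x)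
        = (∫ x, (uH x - u1 x) * ψ x) - ∫ x, ψ x * DD κ S f x := by
      rw [← integral_sub i1 i2]
      refine integral_congr_ae (Eventually.of_forall fun x => ?_)
      show ψ x • ((uH x - u1 x) - DD κ S f x) = (uH x - u1 x) * ψ x - ψ x * DD κ S f x
      rw [smul_eq_mul]; ring
    rw [e2, e1, sub_self]

end wp

/-! ### the mirror image -/

/-- the reflection which exchanges the two ends of the side -/
noncomputable def R (x : ℂ) : ℂ := 1 - (starRingEnd ℂ) x

theorem R_R (x : ℂ) : R (R x) = x := by simp [R]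

theorem R_re (x : ℂ) : (R x).re = 1 - x.re := by simp [R]

theorem R_im (x : ℂ) : (R x).im = x.im := by simp [R]

/-- the linear part of the reflection -/
noncomputable def RA : ℂ ≃L[ℝ] ℂ := Complex.conjCLE.trans (ContinuousLinearEquiv.neg ℝ)

theorem RA_apply (x : ℂ) : RA x + 1 = R x := by
  show -(starRingEnd ℂ) x + 1 = 1 - (starRingEnd ℂ) x
  ring

theorem mp_R : MeasurePreserving R volume volume :=
  (Measure.measurePreserving_sub_left volume (1 : ℂ)).comp Complex.conjLIE.measurePreserving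

theorem emb_R : MeasurableEmbedding R := by
  have h := (RA.toHomeomorph.trans (Homeomorph.addRight (1 : ℂ))).measurableEmbedding
  have e : (RA.toHomeomorph.trans (Homeomorph.addRight (1 : ℂ)) : ℂ → ℂ) = R := by
    funext x
    exact RA_apply x
  rwa [e] at h

theorem integral_R (g : ℂ → ℝ) : ∫ x, g (R x) = ∫ x, g x := mp_R.integral_comp emb_R g

theorem ae_R {p : ℂ → Prop} (h : ∀ᵐ x, p x) : ∀ᵐ x, p (R x) :=
  mp_R.quasiMeasurePreserving.ae h

theorem sol_R {κ : ℝ} {D D' : Set ℂ} {f u : ℂ → ℝ} (h : Sol κ D f u)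
    (hD : ∀ x, R x ∈ D ↔ x ∈ D') : Sol κ D' (fun x => f (R x)) (fun x => u (R x)) := by
  obtain ⟨g, hg⟩ := h.mem.1
  refine ⟨⟨⟨_, H55.grad_refl hg⟩, ?_⟩, fun φ hφ => ?_⟩
  · filter_upwards [ae_R h.mem.2] with x hx hx'
    exact hx fun h2 => hx' ((hD x).1 h2)
  · have ht : (fun x => φ (RA x + 1)) ∈ Test D := by
      refine test_comp_affine hφ _ 1 fun x hx => ?_
      rw [RA_apply] at hx
      have := (hD (R x)).2 hx
      rwa [R_R] at this
    have hl : ∀ x, lap (fun x => φ (RA x + 1)) x = lap φ (R x) := by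
      intro x
      rw [lap_comp_affine (H55.test_univ hφ) RA 1 x (-1) 1 ?_ ?_ (by norm_num), RA_apply]
      · norm_num
      · show -(starRingEnd ℂ) 1 = (-1 : ℝ) • (1 : ℂ)
        simp
      · show -(starRingEnd ℂ) I = (1 : ℝ) • I
        simp
    have e := h.eq _ ht
    simp only [hl] at e
    simp only [RA_apply] at e
    have e1 : ∫ x, u (R x) * (κ ^ 2 * φ x - lap φ x)
        = ∫ x, u x * (κ ^ 2 * φ (R x) - lap φ (R x)) := by
      rw [← integral_R (fun x => u x * (κ ^ 2 * φ (R x) - lap φ (R x)))]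
      simp only [R_R]
    have e2 : ∫ x, f (R x) * φ x = ∫ x, f x * φ (R x) := by
      rw [← integral_R (fun x => f x * φ (R x))]
      simp only [R_R]
    rw [e1, e2, e]

theorem green (hRES : ResStatement) (hHALF : HalfStatement) : GreenStatement := by
  intro β S h0 h1 hS κ hκ f uH u1 hf hH
  refine ⟨fun hW => left hRES hHALF h0 h1 hS hκ hf hH hW, fun hW => ?_⟩
  have hHh : ∀ x, R x ∈ Hh ↔ x ∈ Hh := by
    intro x
    show 0 < (R x).im ↔ 0 < x.im
    rw [R_im]
  have hW2 : ∀ x, R x ∈ W2 β ↔ x ∈ W1 β := by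
    intro x
    unfold W2 W1
    rw [Set.mem_setOf_eq, Set.mem_setOf_eq, R_im, R_re]
    refine and_congr_right fun _ => ?_
    constructor <;> intro h <;> linarith
  have hfR : MemLp (fun x => f (R x)) 2 volume := hf.comp_measurePreserving mp_R
  have key := left hRES hHALF h0 h1 hS hκ hfR (sol_R hH hHh) (sol_R hW hW2)
  filter_upwards [ae_R key] with x hx hxr hxi
  have h2 := hx (by rw [R_re]; linarith) (by rw [R_im]; exact hxi)
  rw [R_R] at h2
  rw [h2]
  unfold DD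
  congr 1
  refine integral_congr_ae (Eventually.of_forall fun w => ?_)
  show dec w ((κ : ℂ) * R x) * JJ κ S (fun x => f (R x)) w
    = dec w ((κ : ℂ) * (1 - (starRingEnd ℂ) x)) * ∫ y, Sr κ S w y * f y
  have e : JJ κ S (fun x => f (R x)) w = ∫ y, Sr κ S w y * f y := by
    unfold JJ
    rw [← integral_R (fun y => Sr κ S w y * f y)]
    refine integral_congr_ae (Eventually.of_forall fun y => ?_)
    show S w ((κ : ℂ) * y) * f (R y) = S w ((κ : ℂ) * (R (R y))) * f (R y)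
    rw [R_R]
  rw [e]
  rfl

end Pool.Agent.H16F.H15
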